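import Pool.Agent.LE.StmtsQY
import Pool.Agent.Helper94_LQX.EIG
import Pool.Agent.Helper76_LQD.RAL

/-!
# Squad LQY (MP_1906c1_mp), row TEV: all eigenvectors on the torus are completely delocalized
-/

set_option autoImplicit false

open MeasureTheory ProbabilityTheory Function Filter

open scoped ENNReal BigOperators Topology NNReal ComplexOrder Matrix

noncomputable section

namespace Pool.Agent.LE.QY.H81

open Pool.Agent.Anderson hiding box mem_box card_box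
open Pool.Agent.Loc Pool.Agent.Mob Pool.Agent.Helper54.Bal
  Pool.Agent.Helper96.EXP Pool.Agent.BED
open Pool.Agent.LE.MN Pool.Agent.LE.CL Pool.Agent.LE.IR Pool.Agent.LE.QD Pool.Agent.LE.QF

/-- an eigenvector is delocalized if the diagonal of the resolvent is bounded -/
theorem ev_bd {d M : ℕ} [NeZero M] (V : Tor d M → ℝ) (E E₀ η B : ℝ) (u : Tor d M → ℂ)
    (hη : 0 < η) (hE : |E - E₀| ≤ η) (hu : hz V (E : ℂ) *ᵥ u = 0) (x : Tor d M)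
    (hB : ‖rs V ⟨E₀, η⟩ x x‖ ≤ B) : ‖u x‖ ^ 2 ≤ 2 * η * B * n2 u := by
  obtain ⟨z, hz1⟩ : ∃ z : ℂ, z = ⟨E₀, η⟩ := ⟨_, rfl⟩
  have hzi : z.im = η := by rw [hz1]
  have hzr : z.re = E₀ := by rw [hz1]
  rw [← hz1] at hB
  have h2 : hz V z = hz V (E : ℂ) + Matrix.diagonal fun _ => ((E : ℂ) - z) := by
    unfold hz
    rw [add_assoc, Matrix.diagonal_add]
    congr 2
    funext y
    ring
  have h1 : hz V z *ᵥ u = ((E : ℂ) - z) • u := by
    rw [h2, Matrix.add_mulVec, hu, zero_add]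
    ext y
    rw [Matrix.mulVec_diagonal]
    rfl
  have h3 : u = ((E : ℂ) - z) • (rs V z *ᵥ u) := by
    rw [← Matrix.mulVec_smul, ← h1, Matrix.mulVec_mulVec,
      Pool.Agent.LE.QD.H76.rs_mul V (by rw [hzi]; exact hη.ne'), Matrix.one_mulVec]
  have h4 : ‖(rs V z *ᵥ u) x‖ ^ 2 ≤ (∑ y, ‖rs V z x y‖ ^ 2) * n2 u := by
    have h5 : ‖(rs V z *ᵥ u) x‖ ≤ ∑ y, ‖rs V z x y‖ * ‖u y‖ := by
      refine (norm_sum_le _ _).trans (Finset.sum_le_sum fun y _ => ?_)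
      rw [norm_mul]
    refine (pow_le_pow_left₀ (norm_nonneg _) h5 2).trans ?_
    exact Finset.sum_mul_sq_le_sq_mul_sq _ _ _
  rw [Pool.Agent.LE.QD.H76.row V (by rw [hzi]; exact hη) x, hzi] at h4
  have h6 : (rs V z x x).im ≤ B :=
    ((le_abs_self _).trans (Complex.abs_im_le_norm _)).trans hB
  have h7 : 0 ≤ n2 u := Finset.sum_nonneg fun _ _ => by positivity
  have h8 : ‖(E : ℂ) - z‖ ^ 2 ≤ 2 * η ^ 2 := by
    rw [← Complex.normSq_eq_norm_sq, Complex.normSq_apply]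
    have h9 : ((E : ℂ) - z).re = E - E₀ := by simp [hzr]
    have h10 : ((E : ℂ) - z).im = - η := by simp [hzi]
    rw [h9, h10]
    have h11 : (E - E₀) * (E - E₀) ≤ η * η := by
      rw [← abs_mul_abs_self (E - E₀)]
      exact mul_le_mul hE hE (abs_nonneg _) hη.le
    nlinarith
  have h12 : ‖u x‖ ^ 2 = ‖(E : ℂ) - z‖ ^ 2 * ‖(rs V z *ᵥ u) x‖ ^ 2 := by
    have := congrFun h3 x
    rw [Pi.smul_apply, smul_eq_mul] at this
    rw [this, norm_mul, mul_pow]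
  rw [h12]
  calc ‖(E : ℂ) - z‖ ^ 2 * ‖(rs V z *ᵥ u) x‖ ^ 2
      ≤ (2 * η ^ 2) * ((rs V z x x).im / η * n2 u) :=
        mul_le_mul h8 h4 (by positivity) (by positivity)
    _ ≤ (2 * η ^ 2) * (B / η * n2 u) := by gcongr
    _ = 2 * η * B * n2 u := by
        field_simp

theorem union_gau {d M : ℕ} [NeZero M] {v : ℝ≥0} (N : ℕ) (p : ℕ → Prop)
    (P : ℕ → (Tor d M → ℝ) → Prop) {q : ℝ}
    (hP : ∀ j, p j → gau d M v {V | ¬ P j V} ≤ ENNReal.ofReal q) :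
    gau d M v (⋃ j ∈ Finset.range N, {V | p j ∧ ¬ P j V}) ≤ ENNReal.ofReal (N * q) := by
  refine (measure_biUnion_finset_le _ _).trans ?_
  have h1 : ∀ j ∈ Finset.range N, gau d M v {V | p j ∧ ¬ P j V} ≤ ENNReal.ofReal q := by
    intro j _
    by_cases hp : p j
    · refine (measure_mono ?_).trans (hP j hp)
      intro V hV
      exact hV.2
    · have h2 : {V : Tor d M → ℝ | p j ∧ ¬ P j V} = ∅ := by
        ext V
        simp [hp]
      rw [h2, measure_empty]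
      exact zero_le
  refine (Finset.sum_le_sum h1).trans (le_of_eq ?_)
  rw [Finset.sum_const, Finset.card_range, nsmul_eq_mul, ← ENNReal.ofReal_natCast,
    ← ENNReal.ofReal_mul (Nat.cast_nonneg _)]

/-- the numbers: the union bound -/
theorem num_u {d : ℕ} (hd : 3 ≤ d) {s θ C Md : ℝ} (hs : 0 < s) (hC : 1 ≤ C)
    (hθ : s ^ θ ≤ 1 / (6 * d * (C + 1))) (h1 : 1 ≤ Md) (h2 : Md ≤ Real.exp (d * s ^ (-θ))) :
    2 * (2 * d * Md + 1) * ((C + 1) * Real.exp (-(s ^ (-(2 * (2 * θ)))))) ≤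
      Real.exp (-(s ^ (-θ))) := by
  have hd0 : (3 : ℝ) ≤ d := by exact_mod_cast hd
  obtain ⟨X, hX⟩ : ∃ X, X = s ^ (-θ) := ⟨_, rfl⟩
  have hX0 : 6 * (d : ℝ) * (C + 1) ≤ X := by
    rw [hX, Real.rpow_neg hs.le]
    rw [le_inv_comm₀ (by positivity) (Real.rpow_pos_of_pos hs _)]
    rwa [one_div] at hθ
  have e1 : s ^ (-(2 * (2 * θ))) = X ^ 4 := by
    rw [hX, ← Real.rpow_natCast, ← Real.rpow_mul hs.le]
    congr 1
    push_cast
    ring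
  rw [e1]
  rw [← hX] at h2 ⊢
  have h3 : 6 * (d : ℝ) * (C + 1) ≤ Real.exp X := by
    have := Real.add_one_le_exp X
    linarith
  have h4 : 2 * (2 * (d : ℝ) * Md + 1) ≤ 6 * d * Md := by nlinarith
  have hXd : (d : ℝ) + 2 ≤ X := by nlinarith
  have h5 : ((d : ℝ) + 2) * X ≤ X ^ 4 := by
    have hX1 : 1 ≤ X := by linarith
    calc ((d : ℝ) + 2) * X ≤ X * X := by gcongr
      _ = X ^ 2 := by ring
      _ ≤ X ^ 4 := pow_le_pow_right₀ hX1 (by norm_num)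
  calc 2 * (2 * d * Md + 1) * ((C + 1) * Real.exp (-X ^ 4))
      ≤ (6 * d * Md) * ((C + 1) * Real.exp (-X ^ 4)) := by gcongr
    _ = (6 * d * (C + 1)) * Md * Real.exp (-X ^ 4) := by ring
    _ ≤ (Real.exp X * Real.exp (d * X)) * Real.exp (-X ^ 4) := by gcongr
    _ = Real.exp (X + d * X + -X ^ 4) := by rw [Real.exp_add, Real.exp_add]
    _ ≤ Real.exp (-X) := Real.exp_le_exp.2 (by linarith)

/-- row TEV -/
theorem tev (tor : TorStmt) : TevStmt := by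
  intro d a ε hd ha hε hε1
  obtain ⟨θ', c', C, hθ', hθ'1, hc', hc'1, hC1, htor⟩ := tor d a (ε / 2) hd ha (by linarith)
    (by linarith)
  obtain ⟨θ, hθ⟩ : ∃ θ, θ = θ' / 2 := ⟨_, rfl⟩
  have hθ0 : 0 < θ := by rw [hθ]; positivity
  have hθ2 : θ' = 2 * θ := by rw [hθ]; ring
  rw [hθ2] at htor
  have hd0 : (3 : ℝ) ≤ d := by exact_mod_cast hd
  have hdp : (0 : ℝ) < d := by linarith
  have hCp : 0 < C := by linarith
  obtain ⟨c, hc⟩ : ∃ c : ℝ, c = min c' (min ((1 / (2 * (C + 1))) ^ (2 / ε))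
    ((1 / (6 * d * (C + 1))) ^ (1 / θ))) := ⟨_, rfl⟩
  have hc0 : 0 < c := by
    rw [hc]
    exact lt_min hc' (lt_min (Real.rpow_pos_of_pos (by positivity) _)
      (Real.rpow_pos_of_pos (by positivity) _))
  have hc1 : c ≤ c' := hc ▸ min_le_left _ _
  have hc2 : c ≤ (1 / (2 * (C + 1))) ^ (2 / ε) := hc ▸ (min_le_right _ _).trans (min_le_left _ _)
  have hc3 : c ≤ (1 / (6 * d * (C + 1))) ^ (1 / θ) :=
    hc ▸ (min_le_right _ _).trans (min_le_right _ _)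
  refine ⟨θ, c, hθ0, hc0, hc1.trans hc'1, ?_⟩
  intro M _ v σ hv hσ hσc hM1 hM2
  obtain ⟨s, hs⟩ : ∃ s, s = |σ| := ⟨_, rfl⟩
  have hs0 : 0 < s := hs ▸ abs_pos.2 hσ
  rw [← hs] at hσc hM1 hM2 ⊢
  have hs4 : s ≤ 1 / 4 := hσc.trans (hc1.trans hc'1)
  have hs1 : s ≤ 1 := by linarith
  have hsθ : s ^ θ ≤ 1 / (6 * d * (C + 1)) := by
    have h1 : s ^ θ ≤ ((1 / (6 * d * (C + 1))) ^ (1 / θ)) ^ θ :=
      Real.rpow_le_rpow hs0.le (hσc.trans hc3) hθ0.le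
    rwa [← Real.rpow_mul (by positivity), one_div_mul_cancel hθ0.ne', Real.rpow_one] at h1
  have hsε : 2 * (C + 1) ≤ s ^ (-(ε / 2)) := by
    have h1 : s ^ (ε / 2) ≤ ((1 / (2 * (C + 1))) ^ (2 / ε)) ^ (ε / 2) :=
      Real.rpow_le_rpow hs0.le (hσc.trans hc2) (by positivity)
    have h2 : 2 / ε * (ε / 2) = 1 := by field_simp
    rw [← Real.rpow_mul (by positivity), h2, Real.rpow_one] at h1
    rw [Real.rpow_neg hs0.le, le_inv_comm₀ (by positivity) (Real.rpow_pos_of_pos hs0 _)]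
    rwa [one_div] at h1
  have hM0 : (0 : ℝ) < M := lt_of_lt_of_le (Real.rpow_pos_of_pos hs0 _) hM1
  have hMge : 1 ≤ (M : ℝ) :=
    (Real.one_le_rpow_of_pos_of_le_one_of_nonpos hs0 hs1 (by norm_num)).trans hM1
  obtain ⟨η, hη⟩ : ∃ η, η = s ^ (-(ε / 2)) / (M : ℝ) ^ d := ⟨_, rfl⟩
  have hsp : 0 < s ^ (-(ε / 2)) := Real.rpow_pos_of_pos hs0 _
  have hη0 : 0 < η := by rw [hη]; positivity
  have hηM : η * (M : ℝ) ^ d = s ^ (-(ε / 2)) := by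
    rw [hη]
    field_simp
  have hsp1 : 1 ≤ s ^ (-(ε / 2)) :=
    Real.one_le_rpow_of_pos_of_le_one_of_nonpos hs0 hs1 (by linarith)
  have hη3 : η ≤ s ^ 3 := by
    rw [hη, div_le_iff₀ (by positivity)]
    have h1 : (s ^ (-5 : ℝ)) ^ 3 ≤ (M : ℝ) ^ d :=
      (pow_le_pow_left₀ (Real.rpow_nonneg hs0.le _) hM1 3).trans (pow_le_pow_right₀ hMge hd)
    have h2 : (s ^ (-5 : ℝ)) ^ 3 = s ^ (-15 : ℝ) := by
      rw [← Real.rpow_natCast, ← Real.rpow_mul hs0.le]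
      norm_num
    have h3 : s ^ (-(ε / 2)) ≤ s ^ 3 * s ^ (-15 : ℝ) := by
      rw [show s ^ 3 = s ^ (3 : ℝ) by exact_mod_cast (Real.rpow_natCast s 3).symm,
        ← Real.rpow_add hs0]
      exact Real.rpow_le_rpow_of_exponent_ge hs0 hs1 (by linarith)
    rw [h2] at h1
    exact h3.trans (mul_le_mul_of_nonneg_left h1 (by positivity))
  have hX1 : 1 ≤ Real.exp (s ^ (-(2 * (2 * θ)))) :=
    Real.one_le_exp (Real.rpow_nonneg hs0.le _)
  have hMθ : (M : ℝ) ≤ Real.exp (s ^ (-(2 * θ))) := by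
    refine hM2.trans (Real.exp_le_exp.2 ?_)
    exact Real.rpow_le_rpow_of_exponent_ge hs0 hs1 (by linarith)
  obtain ⟨q, hq⟩ : ∃ q, q = (C + 1) * Real.exp (-(s ^ (-(2 * (2 * θ))))) := ⟨_, rfl⟩
  have hgau : ∀ E₀ : ℝ, |E₀| ≤ 2 * d - a →
      gau d M v {V | ¬ ∀ x, ‖rs V ⟨E₀, η⟩ x x‖ ≤ C + 1} ≤ ENNReal.ofReal q := by
    intro E₀ hE₀
    obtain ⟨m, hm1, hm2, hm3, hm4⟩ := htor M v σ E₀ η hv hσ (by rw [← hs]; exact hσc.trans hc1) hE₀
      (by rw [← hs]; exact hM1) (by rw [← hs]; exact hMθ) (by rw [← hs, hηM])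
      (by rw [← hs]; exact hη3)
    have h1 := hm4 ⟨0, by omega⟩ _ hX1
    rw [← hs] at h1
    refine (measure_mono ?_).trans (h1.trans (ENNReal.ofReal_le_ofReal ?_))
    · intro V hV hcon
      apply hV
      intro x
      have h2 := hcon.2.1 x x
      rw [hm3 x] at h2
      have h3 : s ^ (2 * θ) ≤ 1 := Real.rpow_le_one hs0.le hs1 (by linarith)
      calc ‖rs V ⟨E₀, η⟩ x x‖ = ‖(rs V ⟨E₀, η⟩ x x - m) + m‖ := by rw [sub_add_cancel]
        _ ≤ ‖rs V ⟨E₀, η⟩ x x - m‖ + ‖m‖ := norm_add_le _ _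
        _ ≤ C + 1 := by linarith
    · rw [hq, div_eq_mul_inv, ← Real.exp_neg]
      linarith
  obtain ⟨J, hJ⟩ : ∃ J : ℕ, J = ⌊(2 * d - a) * (1 / η)⌋₊ + 1 := ⟨_, rfl⟩
  have hti : 0 < 1 / η := by positivity
  have hp : gau d M v (⋃ j ∈ Finset.range J, {V | (0 : ℝ) + (j : ℝ) / (1 / η) ≤ 2 * d - a ∧
      ¬ ∀ x, ‖rs V ⟨0 + (j : ℝ) / (1 / η), η⟩ x x‖ ≤ C + 1}) ≤ ENNReal.ofReal (J * q) := by
    refine union_gau J (fun j => (0 : ℝ) + (j : ℝ) / (1 / η) ≤ 2 * d - a)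
      (fun j V => ∀ x, ‖rs V ⟨0 + (j : ℝ) / (1 / η), η⟩ x x‖ ≤ C + 1) ?_
    intro j hj
    have h1 : 0 ≤ (j : ℝ) / (1 / η) := by positivity
    refine hgau _ ?_
    rw [abs_of_nonneg (by linarith)]
    exact hj
  have hm : gau d M v (⋃ j ∈ Finset.range J, {V | (0 : ℝ) + (j : ℝ) / (1 / η) ≤ 2 * d - a ∧
      ¬ ∀ x, ‖rs V ⟨-(0 + (j : ℝ) / (1 / η)), η⟩ x x‖ ≤ C + 1}) ≤ ENNReal.ofReal (J * q) := by
    refine union_gau J (fun j => (0 : ℝ) + (j : ℝ) / (1 / η) ≤ 2 * d - a)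
      (fun j V => ∀ x, ‖rs V ⟨-(0 + (j : ℝ) / (1 / η)), η⟩ x x‖ ≤ C + 1) ?_
    intro j hj
    have h1 : 0 ≤ (j : ℝ) / (1 / η) := by positivity
    refine hgau _ ?_
    rw [abs_neg, abs_of_nonneg (by linarith)]
    exact hj
  have hfin : 2 * η * (C + 1) ≤ s ^ (-ε) / (M : ℝ) ^ d := by
    rw [hη, le_div_iff₀ (by positivity)]
    have h1 : 2 * (s ^ (-(ε / 2)) / (M : ℝ) ^ d) * (C + 1) * (M : ℝ) ^ d =
        2 * (C + 1) * s ^ (-(ε / 2)) := by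
      field_simp
    rw [h1]
    have h2 : s ^ (-ε) = s ^ (-(ε / 2)) * s ^ (-(ε / 2)) := by
      rw [← Real.rpow_add hs0]
      congr 1
      ring
    rw [h2]
    exact mul_le_mul_of_nonneg_right hsε hsp.le
  have key : ∀ (V : Tor d M → ℝ) (E₀ : ℝ), (∀ x, ‖rs V ⟨E₀, η⟩ x x‖ ≤ C + 1) →
      ∀ (E : ℝ) (u : Tor d M → ℂ), |E - E₀| ≤ 1 / (1 / η) → hz V (E : ℂ) *ᵥ u = 0 →
        ∀ x, ‖u x‖ ^ 2 ≤ s ^ (-ε) / (M : ℝ) ^ d * n2 u := by
    intro V E₀ hG E u hE hu x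
    rw [one_div_one_div] at hE
    have h7 : 0 ≤ n2 u := Finset.sum_nonneg fun _ _ => by positivity
    exact (ev_bd V E E₀ η (C + 1) u hη0 hE hu x (hG x)).trans
      (mul_le_mul_of_nonneg_right hfin h7)
  have hsub : {V : Tor d M → ℝ | ¬ ∀ (E : ℝ) (u : Tor d M → ℂ), |E| ≤ 2 * d - a →
      hz V (E : ℂ) *ᵥ u = 0 → ∀ x, ‖u x‖ ^ 2 ≤ s ^ (-ε) / (M : ℝ) ^ d * n2 u} ⊆
      (⋃ j ∈ Finset.range J, {V | (0 : ℝ) + (j : ℝ) / (1 / η) ≤ 2 * d - a ∧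
      ¬ ∀ x, ‖rs V ⟨0 + (j : ℝ) / (1 / η), η⟩ x x‖ ≤ C + 1}) ∪
      (⋃ j ∈ Finset.range J, {V | (0 : ℝ) + (j : ℝ) / (1 / η) ≤ 2 * d - a ∧
      ¬ ∀ x, ‖rs V ⟨-(0 + (j : ℝ) / (1 / η)), η⟩ x x‖ ≤ C + 1}) := by
    intro V hV
    by_contra hcon
    apply hV
    intro E u hE hu
    simp only [Set.mem_union, Set.mem_iUnion, Set.mem_ofPred_eq, not_or, not_exists, not_and,
      not_not] at hcon
    obtain ⟨j, hj, hj1, hj2⟩ := Pool.Agent.LE.QX.H94.grid hti (abs_nonneg E) hE le_rfl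
    rw [← hJ] at hj
    rcases hj2 with hj2 | hj2
    · exact key V _ (hcon.1 j hj hj1) E u hj2 hu
    · exact key V _ (hcon.2 j hj hj1) E u hj2 hu
  refine (measure_mono hsub).trans ((measure_union_le _ _).trans ?_)
  refine (add_le_add hp hm).trans ?_
  have hq0 : 0 < q := by rw [hq]; positivity
  rw [← ENNReal.ofReal_add (by positivity) (by positivity)]
  refine ENNReal.ofReal_le_ofReal ?_
  have hMd1 : 1 ≤ (M : ℝ) ^ d := one_le_pow₀ hMge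
  have hiη : 1 / η ≤ (M : ℝ) ^ d := by
    rw [div_le_iff₀ hη0, mul_comm, hηM]
    exact hsp1
  have hJ1 : (J : ℝ) ≤ 2 * d * (M : ℝ) ^ d + 1 := by
    rw [hJ]
    push_cast
    have h1 : (⌊(2 * d - a) * (1 / η)⌋₊ : ℝ) ≤ 2 * d * (M : ℝ) ^ d := by
      rcases le_or_gt 0 ((2 * d - a) * (1 / η)) with h2 | h2
      · refine (Nat.floor_le h2).trans ?_
        calc (2 * d - a) * (1 / η) ≤ (2 * d) * (1 / η) := by
              refine mul_le_mul_of_nonneg_right ?_ hti.le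
              linarith
          _ ≤ 2 * d * (M : ℝ) ^ d := by gcongr
      · rw [Nat.floor_of_nonpos h2.le]
        push_cast
        positivity
    linarith
  have hMe : (M : ℝ) ^ d ≤ Real.exp (d * s ^ (-θ)) := by
    rw [Real.exp_nat_mul]
    exact pow_le_pow_left₀ hM0.le hM2 d
  have h1 := num_u hd hs0 hC1 hsθ hMd1 hMe
  rw [← hq] at h1
  refine le_trans ?_ h1
  have h2 : (J : ℝ) * q ≤ (2 * d * (M : ℝ) ^ d + 1) * q := mul_le_mul_of_nonneg_right hJ1 hq0.le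
  linarith

end Pool.Agent.LE.QY.H81
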